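import Pool.Agent.Q276.CD.Stm2

set_option autoImplicit false

/-! Project CD (helper276), lemma job LOCF: the mollified zeta function is rarely small, with the
weight `|AA|^2`. -/

namespace Pool.Agent.Q129.CD

open MeasureTheory Filter Pool.Agent.Q276.CD

lemma dp_diff (a : ℕ → ℂ) (Y : ℕ) : Differentiable ℂ (Dp a Y) := by
  unfold Dp
  refine Differentiable.fun_sum fun n hn => ?_
  have hn0 : (n : ℂ) ≠ 0 := by
    have := (Finset.mem_Icc.mp hn).1
    exact_mod_cast (by omega : n ≠ 0)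
  exact (differentiable_const _).mul (Differentiable.const_cpow (differentiable_id.neg) (Or.inl hn0))

lemma dp_norm {a : ℕ → ℂ} (ha : ∀ n, ‖a n‖ ≤ 1) (Y : ℕ) (t : ℝ) : ‖Dp a Y (cl t)‖ ≤ Y := by
  unfold Dp
  refine (norm_sum_le _ _).trans ?_
  calc ∑ n ∈ Finset.Icc 1 Y, ‖a n * (n : ℂ) ^ (-cl t)‖ ≤ ∑ n ∈ Finset.Icc 1 Y, (1:ℝ) := by
        refine Finset.sum_le_sum fun n hn => ?_
        have hn1 : 1 ≤ n := (Finset.mem_Icc.mp hn).1
        rw [norm_mul, Complex.norm_natCast_cpow_of_pos (by omega)]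
        have h1 : (-cl t).re ≤ 0 := by simp [cl]
        have h2 : (n:ℝ) ^ (-cl t).re ≤ 1 := Real.rpow_le_one_of_one_le_of_nonpos (by exact_mod_cast hn1) h1
        have h3 : 0 ≤ (n:ℝ) ^ (-cl t).re := Real.rpow_nonneg (by positivity) _
        calc ‖a n‖ * (n:ℝ) ^ (-cl t).re ≤ 1 * 1 := mul_le_mul (ha n) h2 h3 zero_le_one
          _ = 1 := by norm_num
    _ = Y := by simp

/-- averaging over windows -/
lemma window {h R : ℝ → ℝ} {T1 T2 σ B : ℝ} (h0 : ∀ t, 0 ≤ h t) (hm : Measurable h)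
    (hb : ∀ t, h t ≤ B) (hs : ∀ t, t ∉ Set.Icc T1 T2 → h t = 0) (σ0 : 0 ≤ σ) (σ1 : σ ≤ 1)
    (hR : IntegrableOn R (Set.Icc (T1 - 1) (T2 + 1)))
    (H : ∀ t ∈ Set.Icc (T1 - 1) (T2 + 1), ∫ x in Set.Icc (-1:ℝ) 1, h (t + σ * x) ≤ R t) :
    2 * ∫ t, h t ≤ ∫ t in Set.Icc (T1 - 1) (T2 + 1), R t := by
  have hint : Integrable (Function.uncurry fun (t x : ℝ) => h (t + σ * x))
      ((volume.restrict (Set.Icc (T1 - 1) (T2 + 1))).prod (volume.restrict (Set.Icc (-1:ℝ) 1))) := by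
    refine Integrable.of_bound ?_ B (Eventually.of_forall fun q => ?_)
    · exact (hm.comp (by fun_prop)).aestronglyMeasurable
    · rw [Real.norm_eq_abs, Function.uncurry, abs_of_nonneg (h0 _)]
      exact hb _
  have e1 : ∀ x ∈ Set.Icc (-1:ℝ) 1, ∫ t in Set.Icc (T1 - 1) (T2 + 1), h (t + σ * x) = ∫ t, h t := by
    intro x hx
    rw [setIntegral_eq_integral_of_forall_compl_eq_zero, integral_add_right_eq_self (fun t => h t)]
    intro t ht
    refine hs _ fun hh => ht ?_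
    have a1 : σ * x ≤ 1 := by
      calc σ * x ≤ σ * 1 := mul_le_mul_of_nonneg_left hx.2 σ0
        _ ≤ 1 := by linarith
    have a2 : -1 ≤ σ * x := by
      calc (-1:ℝ) ≤ σ * (-1) := by linarith
        _ ≤ σ * x := mul_le_mul_of_nonneg_left hx.1 σ0
    exact ⟨by linarith [hh.1], by linarith [hh.2]⟩
  have e2 : ∫ x in Set.Icc (-1:ℝ) 1, ∫ t in Set.Icc (T1 - 1) (T2 + 1), h (t + σ * x) = 2 * ∫ t, h t := by
    rw [setIntegral_congr_fun measurableSet_Icc (fun x hx => e1 x hx), setIntegral_const]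
    simp [Measure.real]
    norm_num
  rw [← e2, ← integral_integral_swap hint]
  exact setIntegral_mono_on hint.integral_prod_left hR measurableSet_Icc H

/-- the body of the statement LOC -/
def LocB (C : ℝ) : Prop := ∀ (f : ℂ → ℂ) (m w a : ℝ), DifferentiableOn ℂ f (Metric.ball 0 9) →
  0 ≤ m → 0 < a → (∀ z : ℂ, ‖z‖ ≤ 8 → ‖f z‖ ≤ Real.exp m * a) → a / 2 ≤ ‖f (-Complex.I)‖ →
  volume.real {x : ℝ | x ∈ Set.Icc (-1:ℝ) 1 ∧ ‖f (x : ℂ)‖ ≤ a * Real.exp (-w)} ≤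
    C * Real.exp (-(w / (2 * m + 5)))

/-- the pointwise bound -/
lemma pw {f1 f2 : ℂ → ℂ} {S : Set ℝ} {c1 c2 m w C : ℝ} (hS : MeasurableSet S) (hm : 0 ≤ m)
    (hc1 : ∀ z : ℂ, ‖z‖ ≤ 8 → ‖f1 z - f1 0‖ ^ 2 ≤ c1)
    (hc2 : ∀ z : ℂ, ‖z‖ ≤ 8 → ‖f2 z‖ ^ 2 ≤ c2)
    (hf1 : Continuous f1) (hf2 : Differentiable ℂ f2)
    (hS2 : ∀ x ∈ S, x ∈ Set.Icc (-1:ℝ) 1 → ‖f2 x‖ ≤ 2 / 3 * Real.exp (-w) * ‖f1 x‖)
    (hC : 0 ≤ C) (hL : LocB C) :
    ∫ x in Set.Icc (-1:ℝ) 1, S.indicator (fun x : ℝ => ‖f1 x‖ ^ 2) x ≤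
      20 * c1 + 4 * Real.exp (-(2 * m)) * c2 + 16 * ‖f2 (-Complex.I) - f1 0‖ ^ 2 +
        9 / 4 * C * Real.exp (-(w / (2 * m + 5))) * ‖f1 0‖ ^ 2 := by
  have hx8 : ∀ x ∈ Set.Icc (-1:ℝ) 1, ‖(x:ℂ)‖ ≤ 8 := by
    intro x hx
    rw [Complex.norm_real, Real.norm_eq_abs]
    exact (abs_le.mpr ⟨hx.1, hx.2⟩).trans (by norm_num)
  have c10 : 0 ≤ c1 := (sq_nonneg _).trans (hc1 0 (by simp))
  have c20 : 0 ≤ c2 := (sq_nonneg _).trans (hc2 0 (by simp))
  set a := ‖f1 0‖ with ha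
  set d := ‖f2 (-Complex.I) - f1 0‖ ^ 2 with hd
  have a0 : 0 ≤ a := norm_nonneg _
  have d0' : 0 ≤ d := sq_nonneg _
  have hcc : Continuous fun x : ℝ => ‖f1 x‖ ^ 2 := by fun_prop
  have hii : IntegrableOn (fun x : ℝ => ‖f1 x‖ ^ 2) (Set.Icc (-1:ℝ) 1) :=
    hcc.continuousOn.integrableOn_Icc
  have hi2 : IntegrableOn (S.indicator fun x : ℝ => ‖f1 x‖ ^ 2) (Set.Icc (-1:ℝ) 1) := hii.indicator hS
  -- the trivial bound
  have triv : ∫ x in Set.Icc (-1:ℝ) 1, S.indicator (fun x : ℝ => ‖f1 x‖ ^ 2) x ≤ 4 * a ^ 2 + 4 * c1 := by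
    have h1 : ∀ x ∈ Set.Icc (-1:ℝ) 1, S.indicator (fun x : ℝ => ‖f1 x‖ ^ 2) x ≤ 2 * a ^ 2 + 2 * c1 := by
      intro x hx
      have h2 : ‖f1 x‖ ^ 2 ≤ 2 * a ^ 2 + 2 * c1 := by
        have h3 : ‖f1 x‖ ≤ a + ‖f1 x - f1 0‖ := by
          calc ‖f1 x‖ = ‖f1 0 + (f1 x - f1 0)‖ := by ring_nf
            _ ≤ _ := norm_add_le _ _
        have h4 := hc1 x (hx8 x hx)
        have h5 : ‖f1 x‖ ^ 2 ≤ (a + ‖f1 x - f1 0‖) ^ 2 := pow_le_pow_left₀ (norm_nonneg _) h3 2
        nlinarith [sq_nonneg (a - ‖f1 x - f1 0‖)]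
      by_cases hxS : x ∈ S
      · rw [Set.indicator_of_mem hxS]; exact h2
      · rw [Set.indicator_of_notMem hxS]; positivity
    calc ∫ x in Set.Icc (-1:ℝ) 1, S.indicator (fun x : ℝ => ‖f1 x‖ ^ 2) x ≤
        ∫ x in Set.Icc (-1:ℝ) 1, (2 * a ^ 2 + 2 * c1) :=
          setIntegral_mono_on hi2 (by simp) measurableSet_Icc h1
      _ = 4 * a ^ 2 + 4 * c1 := by
          rw [setIntegral_const]; simp [Measure.real]; ring_nf
  have e0 : 0 ≤ 4 * Real.exp (-(2 * m)) * c2 := by positivity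
  have e00 : 0 ≤ 9 / 4 * C * Real.exp (-(w / (2 * m + 5))) * a ^ 2 := by positivity
  by_cases h1 : a ^ 2 < 4 * c1
  · linarith
  by_cases h2 : a ^ 2 < Real.exp (-(2 * m)) * c2
  · linarith
  by_cases h3 : a ^ 2 < 4 * d
  · linarith
  rcases eq_or_lt_of_le a0 with h4 | h4
  · rw [← h4] at h1 triv
    have : c1 ≤ 0 := by
      by_contra hh
      apply h1
      push Not at hh
      nlinarith
    nlinarith
  push Not at h1 h2 h3
  have h5 : ∀ z : ℂ, ‖z‖ ≤ 8 → ‖f2 z‖ ≤ Real.exp m * a := by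
    intro z hz
    have h6 := hc2 z hz
    have h7 : c2 ≤ (Real.exp m * a) ^ 2 := by
      have h8 : Real.exp (2 * m) * (Real.exp (-(2 * m)) * c2) ≤ Real.exp (2 * m) * a ^ 2 :=
        mul_le_mul_of_nonneg_left h2 (Real.exp_pos _).le
      rw [← mul_assoc, ← Real.exp_add, add_neg_cancel, Real.exp_zero, one_mul] at h8
      rw [mul_pow, ← Real.exp_nat_mul]
      exact_mod_cast h8
    exact le_of_sq_le_sq (h6.trans h7) (by positivity)
  have h6 : a / 2 ≤ ‖f2 (-Complex.I)‖ := by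
    have h7 : ‖f2 (-Complex.I) - f1 0‖ ≤ a / 2 := by
      refine le_of_sq_le_sq ?_ (by positivity)
      rw [← hd]; nlinarith
    have h8 : a ≤ ‖f2 (-Complex.I)‖ + ‖f2 (-Complex.I) - f1 0‖ := by
      calc a = ‖f2 (-Complex.I) - (f2 (-Complex.I) - f1 0)‖ := by rw [ha]; ring_nf
        _ ≤ _ := norm_sub_le _ _
    linarith
  have h7 := hL f2 m w a hf2.differentiableOn hm h4 h5 h6
  have h8 : ∀ x ∈ Set.Icc (-1:ℝ) 1, ‖f1 x‖ ≤ 3 / 2 * a := by
    intro x hx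
    have h9 : ‖f1 x - f1 0‖ ≤ a / 2 := by
      refine le_of_sq_le_sq ((hc1 x (hx8 x hx)).trans ?_) (by positivity)
      nlinarith
    calc ‖f1 x‖ = ‖f1 0 + (f1 x - f1 0)‖ := by ring_nf
      _ ≤ a + ‖f1 x - f1 0‖ := norm_add_le _ _
      _ ≤ 3 / 2 * a := by linarith
  set E : Set ℝ := {x : ℝ | x ∈ Set.Icc (-1:ℝ) 1 ∧ ‖f2 (x : ℂ)‖ ≤ a * Real.exp (-w)} with hE
  have hEm : MeasurableSet E := by
    have : Continuous fun x : ℝ => ‖f2 (x : ℂ)‖ := (hf2.continuous.comp Complex.continuous_ofReal).norm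
    exact measurableSet_Icc.inter (measurableSet_le this.measurable measurable_const)
  have h9 : ∀ x ∈ Set.Icc (-1:ℝ) 1, S.indicator (fun x : ℝ => ‖f1 x‖ ^ 2) x ≤
      E.indicator (fun _ => 9 / 4 * a ^ 2) x := by
    intro x hx
    by_cases hxS : x ∈ S
    · have h10 : x ∈ E := by
        refine ⟨hx, (hS2 x hxS hx).trans ?_⟩
        calc 2 / 3 * Real.exp (-w) * ‖f1 x‖ ≤ 2 / 3 * Real.exp (-w) * (3 / 2 * a) :=
              mul_le_mul_of_nonneg_left (h8 x hx) (by positivity)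
          _ = a * Real.exp (-w) := by ring
      rw [Set.indicator_of_mem hxS, Set.indicator_of_mem h10]
      calc ‖f1 x‖ ^ 2 ≤ (3 / 2 * a) ^ 2 := pow_le_pow_left₀ (norm_nonneg _) (h8 x hx) 2
        _ = 9 / 4 * a ^ 2 := by ring
    · rw [Set.indicator_of_notMem hxS]
      exact Set.indicator_nonneg (fun _ _ => by positivity) _
  have h10 : ∫ x in Set.Icc (-1:ℝ) 1, S.indicator (fun x : ℝ => ‖f1 x‖ ^ 2) x ≤
      ∫ x in Set.Icc (-1:ℝ) 1, E.indicator (fun _ => 9 / 4 * a ^ 2) x := by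
    refine setIntegral_mono_on hi2 ?_ measurableSet_Icc h9
    have h13 : IntegrableOn (fun _ : ℝ => 9 / 4 * a ^ 2) (Set.Icc (-1:ℝ) 1) :=
      continuous_const.continuousOn.integrableOn_Icc
    exact h13.indicator hEm
  have h11 : ∫ x in Set.Icc (-1:ℝ) 1, E.indicator (fun _ => 9 / 4 * a ^ 2) x = volume.real E * (9 / 4 * a ^ 2) := by
    rw [setIntegral_indicator hEm, setIntegral_const, smul_eq_mul]
    congr 2
    exact Set.inter_eq_right.mpr fun x hx => hx.1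
  have h12 : volume.real E * (9 / 4 * a ^ 2) ≤ C * Real.exp (-(w / (2 * m + 5))) * (9 / 4 * a ^ 2) :=
    mul_le_mul_of_nonneg_right h7 (by positivity)
  rw [h11] at h10
  nlinarith

lemma im {g : ℝ → ℝ} (hg : Continuous g) (h0 : ∀ t, 0 ≤ g t) {a b c d : ℝ} (h1 : a ≤ c) (h2 : c ≤ d)
    (h3 : d ≤ b) : ∫ t in c..d, g t ≤ ∫ t in a..b, g t :=
  intervalIntegral.integral_mono_interval h1 h2 h3 (Eventually.of_forall fun t => h0 t)
    (hg.intervalIntegrable _ _)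

lemma ev_exp (A B : ℝ) (n : ℕ) : ∀ᶠ x : ℝ in atTop, A + B * x ^ n ≤ Real.exp x := by
  have h1 : (fun x : ℝ => A + B * x ^ n) =o[atTop] fun x => Real.exp (1 * x) := by
    refine Asymptotics.IsLittleO.add ?_ ?_
    · simpa using (isLittleO_pow_exp_pos_mul_atTop (b := 1) (k := 0) one_pos).const_mul_left A
    · exact (isLittleO_pow_exp_pos_mul_atTop (b := 1) (k := n) one_pos).const_mul_left B
  filter_upwards [h1.bound one_pos] with x hx
  rw [one_mul, one_mul, Real.norm_eq_abs, Real.norm_eq_abs, abs_of_pos (Real.exp_pos _)] at hx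
  exact (le_abs_self _).trans hx

lemma v_tendsto : Tendsto V atTop atTop := Real.tendsto_log_atTop.comp Real.tendsto_log_atTop

lemma l3_tendsto : Tendsto l3 atTop atTop := Real.tendsto_log_atTop.comp v_tendsto

lemma cl_add (t x σ : ℝ) : cl (t + σ * x) = cl t + (σ : ℂ) * Complex.I * x := by
  unfold cl; push_cast; ring

lemma cl_cont : Continuous cl := by unfold cl; fun_prop

/-- on the exceptional set the product is small -/
lemma small_prod {T k w CZ u : ℝ} (hT : 4 ≤ T) (hCZ : 0 < CZ) (hw : 2 ≤ w)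
    (hwT : 3 * CZ * Real.exp w ≤ T ^ ((9:ℝ) / 20))
    (e6 : ‖riemannZeta (cl u) - ZZ T (cl u)‖ ≤ CZ * T ^ (-(1:ℝ) / 2))
    (hx2 : ‖riemannZeta (cl u) * MM T (cl u)‖ ≤ Real.exp (-(2 * w))) :
    ‖FF k T (cl u)‖ ≤ 2 / 3 * Real.exp (-w) * ‖AA k T (cl u)‖ := by
  have e5 : ‖ZZ T (cl u) * MM T (cl u)‖ ≤ Real.exp (-(2 * w)) + CZ * T ^ (-(1:ℝ) / 2) * T ^ ((1:ℝ) / 20) := by
    have e7 : ‖MM T (cl u)‖ ≤ T ^ ((1:ℝ) / 20) := by
      refine (dp_norm (fun n => ?_) _ u).trans (Nat.floor_le (by positivity))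
      rw [Complex.norm_real, Real.norm_eq_abs]
      exact muM_abs n
    calc ‖ZZ T (cl u) * MM T (cl u)‖ =
        ‖riemannZeta (cl u) * MM T (cl u) - (riemannZeta (cl u) - ZZ T (cl u)) * MM T (cl u)‖ := by
          congr 1; ring
      _ ≤ ‖riemannZeta (cl u) * MM T (cl u)‖ + ‖(riemannZeta (cl u) - ZZ T (cl u)) * MM T (cl u)‖ :=
          norm_sub_le _ _
      _ ≤ Real.exp (-(2 * w)) + CZ * T ^ (-(1:ℝ) / 2) * T ^ ((1:ℝ) / 20) := by
          rw [norm_mul (_ - _)]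
          exact add_le_add hx2 (mul_le_mul e6 e7 (norm_nonneg _) (by positivity))
  have e8 : Real.exp (-(2 * w)) ≤ 1 / 3 * Real.exp (-w) := by
    rw [show -(2 * w) = -w + -w by ring, Real.exp_add]
    refine mul_le_mul_of_nonneg_right ?_ (Real.exp_pos _).le
    rw [Real.exp_neg, inv_le_comm₀ (Real.exp_pos _) (by norm_num)]
    have := Real.add_one_le_exp w
    norm_num
    linarith
  have e9 : CZ * T ^ (-(1:ℝ) / 2) * T ^ ((1:ℝ) / 20) ≤ 1 / 3 * Real.exp (-w) := by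
    have hT0 : 0 < T := by linarith
    rw [mul_assoc, ← Real.rpow_add hT0, Real.exp_neg]
    have e10 : (-(1:ℝ) / 2 + 1 / 20) = -(9 / 20) := by norm_num
    rw [e10, Real.rpow_neg hT0.le]
    have p1 : 0 < T ^ ((9:ℝ) / 20) := by positivity
    have p2 := Real.exp_pos w
    rw [← div_eq_mul_inv, ← div_eq_mul_inv, div_le_div_iff₀ p1 p2]
    linarith
  have e11 : FF k T (cl u) = (ZZ T (cl u) * MM T (cl u)) * AA k T (cl u) := by unfold FF; ring
  rw [e11, norm_mul]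
  exact mul_le_mul_of_nonneg_right (by linarith) (norm_nonneg _)

/-- the estimate for one value of `T`, for two entire functions -/
lemma coreT {A F : ℂ → ℂ} (dA : Differentiable ℂ A) (dF : Differentiable ℂ F) {S : Set ℝ}
    {T m w σ CL : ℝ} (hT : 4 ≤ T) (hSm : MeasurableSet S) (hST : ∀ t ∈ S, t ∈ Set.Icc T (2 * T))
    (hsm : ∀ t ∈ S, ‖F (cl t)‖ ≤ 2 / 3 * Real.exp (-w) * ‖A (cl t)‖)
    (hm : 0 ≤ m) (hσ0 : 0 ≤ σ) (hσ1 : σ ≤ 1) (hCL : 1 ≤ CL)
    (CIR : P_CIR) (LOC : LocB CL) {B1 B2 B3 B4 : ℝ}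
    (h1 : ∀ z : ℂ, ‖z‖ ≤ 9 * σ → ∫ t in (T / 4)..(8 * T), ‖A (cl t + z) - A (cl t)‖ ^ 2 ≤ B1)
    (h2 : ∀ z : ℂ, ‖z‖ ≤ 9 * σ → ∫ t in (T / 2 + 1)..(4 * T - 1), ‖F (cl t + z)‖ ^ 2 ≤ B2)
    (h3 : ∫ t in (T / 2)..(4 * T), ‖F (cl t + (σ : ℂ)) - A (cl t)‖ ^ 2 ≤ B3)
    (h4 : ∫ t in (T / 4)..(8 * T), ‖A (cl t)‖ ^ 2 ≤ B4) :
    2 * ∫ t in S, ‖A (cl t)‖ ^ 2 ≤
    1620 * B1 + 324 * Real.exp (-(2 * m)) * B2 + 16 * B3 + 9 / 4 * CL * Real.exp (-(w / (2 * m + 5))) * B4 := by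
  have cA := dA.continuous
  have cF := dF.continuous
  have cc := cl_cont
  set h : ℝ → ℝ := S.indicator fun t => ‖A (cl t)‖ ^ 2 with hh
  have cA2 : Continuous fun t : ℝ => ‖A (cl t)‖ ^ 2 := ((cA.comp cc).norm).pow 2
  have hhm : Measurable h := cA2.measurable.indicator hSm
  have hh0 : ∀ t, 0 ≤ h t := fun t => Set.indicator_nonneg (fun _ _ => by positivity) _
  have hhs : ∀ t, t ∉ Set.Icc T (2 * T) → h t = 0 := by
    intro t ht
    rw [hh, Set.indicator_of_notMem]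
    exact fun h' => ht (hST t h')
  obtain ⟨B, hB⟩ : ∃ B : ℝ, ∀ t, h t ≤ B := by
    obtain ⟨B, hB⟩ := (isCompact_Icc (a := T) (b := 2 * T)).bddAbove_image cA2.continuousOn
    refine ⟨max B 0, fun t => ?_⟩
    by_cases ht : t ∈ S
    · rw [hh, Set.indicator_of_mem ht]
      exact (hB ⟨t, hST t ht, rfl⟩).trans (le_max_left _ _)
    · rw [hh, Set.indicator_of_notMem ht]
      exact le_max_right _ _
  -- the two families
  set G1 : ℝ → ℂ → ℂ := fun t z => A (cl t + (σ : ℂ) * Complex.I * z) - A (cl t) with hG1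
  set G2 : ℝ → ℂ → ℂ := fun t z => F (cl t + (σ : ℂ) * Complex.I * z) with hG2
  have cG1 : Continuous fun q : ℝ × ℂ => G1 q.1 q.2 := by
    have e1 : Continuous fun q : ℝ × ℂ => cl q.1 + (σ : ℂ) * Complex.I * q.2 := by fun_prop
    have e2 : Continuous fun q : ℝ × ℂ => cl q.1 := by fun_prop
    exact (cA.comp e1).sub (cA.comp e2)
  have cG2 : Continuous fun q : ℝ × ℂ => G2 q.1 q.2 := by
    have e1 : Continuous fun q : ℝ × ℂ => cl q.1 + (σ : ℂ) * Complex.I * q.2 := by fun_prop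
    exact cF.comp e1
  have dlin : ∀ t : ℝ, Differentiable ℂ fun z : ℂ => cl t + (σ : ℂ) * Complex.I * z := by
    intro t; fun_prop
  have dG1 : ∀ t, Differentiable ℂ (G1 t) := fun t => (dA.comp (dlin t)).sub_const _
  have dG2 : ∀ t, Differentiable ℂ (G2 t) := fun t => dF.comp (dlin t)
  obtain ⟨k1, k2, k3⟩ := CIR G1 cG1 dG1
  obtain ⟨m1, m2, m3⟩ := CIR G2 cG2 dG2
  have hσz : ∀ θ : ℝ, ‖(σ : ℂ) * Complex.I * circleMap 0 9 θ‖ ≤ 9 * σ := by
    intro θ
    rw [norm_mul, norm_mul, Complex.norm_I, Complex.norm_real, Real.norm_eq_abs, abs_of_nonneg hσ0]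
    simp [circleMap]
    linarith
  set D : ℝ → ℝ := fun t => ‖F (cl t + (σ : ℂ)) - A (cl t)‖ ^ 2 with hD
  have cD : Continuous D := by
    have e1 : Continuous fun t : ℝ => cl t + (σ : ℂ) := by fun_prop
    exact (((cF.comp e1).sub (cA.comp cc)).norm).pow 2
  set E1 := Real.exp (-(2 * m)) with hE1
  set E2 := Real.exp (-(w / (2 * m + 5))) with hE2
  have hE10 : 0 ≤ E1 := (Real.exp_pos _).le
  have hE20 : 0 ≤ E2 := (Real.exp_pos _).le
  set R : ℝ → ℝ := fun t => 20 * CA G1 t + 4 * E1 * CA G2 t + 16 * D t + 9 / 4 * CL * E2 * ‖A (cl t)‖ ^ 2 with hR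
  have cR : Continuous R := by
    refine ((((continuous_const.mul k1).add (continuous_const.mul m1))).add (continuous_const.mul cD)).add
      (continuous_const.mul cA2)
  have key : 2 * ∫ t, h t ≤ ∫ t in Set.Icc (T - 1) (2 * T + 1), R t := by
    refine window (σ := σ) (B := B) hh0 hhm hB hhs hσ0 hσ1 cR.continuousOn.integrableOn_Icc ?_
    intro t ht
    set S' : Set ℝ := {x : ℝ | t + σ * x ∈ S} with hS'
    have hSm' : MeasurableSet S' := hSm.preimage (by fun_prop)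
    have e1 : ∀ x : ℝ, h (t + σ * x) = S'.indicator
        (fun x : ℝ => ‖A (cl t + (σ : ℂ) * Complex.I * x)‖ ^ 2) x := by
      intro x
      by_cases hx : x ∈ S'
      · rw [Set.indicator_of_mem hx, hh, Set.indicator_of_mem (show t + σ * x ∈ S from hx), cl_add]
      · rw [Set.indicator_of_notMem hx, hh, Set.indicator_of_notMem (show t + σ * x ∉ S from hx)]
    simp_rw [e1]
    have e2 := pw (f1 := fun z : ℂ => A (cl t + (σ : ℂ) * Complex.I * z)) (f2 := G2 t) (S := S')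
      (c1 := CA G1 t) (c2 := CA G2 t) (m := m) (w := w) (C := CL) hSm' hm
      (fun z hz => by
        have := k2 t z hz
        simpa [hG1] using this)
      (m2 t) (cA.comp (dlin t).continuous) (dG2 t)
      (fun x hx hx1 => by
        have e4 : (cl t + (σ : ℂ) * Complex.I * x) = cl (t + σ * x) := (cl_add t x σ).symm
        have e5 := hsm (t + σ * x) hx
        simp only [hG2]
        rw [e4]
        exact e5) (by linarith) LOC
    have e3 : G2 t (-Complex.I) = F (cl t + (σ : ℂ)) := by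
      simp only [hG2]
      congr 2
      rw [mul_neg, mul_assoc, Complex.I_mul_I]
      ring
    rw [e3] at e2
    simpa [hR, hD] using e2
  rw [hh, integral_indicator hSm] at key
  refine key.trans ?_
  rw [integral_Icc_eq_integral_Ioc, ← intervalIntegral.integral_of_le (by linarith)]
  have i1 : IntervalIntegrable (fun t => 20 * CA G1 t) volume (T - 1) (2 * T + 1) :=
    (continuous_const.mul k1).intervalIntegrable _ _
  have i2 : IntervalIntegrable (fun t => 4 * E1 * CA G2 t) volume (T - 1) (2 * T + 1) :=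
    (continuous_const.mul m1).intervalIntegrable _ _
  have i3 : IntervalIntegrable (fun t => 16 * D t) volume (T - 1) (2 * T + 1) :=
    (continuous_const.mul cD).intervalIntegrable _ _
  have i4 : IntervalIntegrable (fun t => 9 / 4 * CL * E2 * ‖A (cl t)‖ ^ 2) volume (T - 1) (2 * T + 1) :=
    (continuous_const.mul cA2).intervalIntegrable _ _
  rw [hR]
  rw [intervalIntegral.integral_add ((i1.add i2).add i3) i4, intervalIntegral.integral_add (i1.add i2) i3,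
    intervalIntegral.integral_add i1 i2, intervalIntegral.integral_const_mul, intervalIntegral.integral_const_mul,
    intervalIntegral.integral_const_mul, intervalIntegral.integral_const_mul]
  have j1 : ∫ t in (T - 1)..(2 * T + 1), CA G1 t ≤ 81 * B1 := by
    refine k3 _ _ _ (by linarith) fun θ _ => ?_
    refine le_trans (im (a := T / 4) (b := 8 * T) ?_ (fun t => by positivity) (by linarith) (by linarith) (by linarith))
      (h1 _ (hσz θ))
    exact ((cG1.comp (Continuous.prodMk continuous_id continuous_const)).norm).pow 2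
  have j2 : ∫ t in (T - 1)..(2 * T + 1), CA G2 t ≤ 81 * B2 := by
    refine m3 _ _ _ (by linarith) fun θ _ => ?_
    refine le_trans (im (a := T / 2 + 1) (b := 4 * T - 1) ?_ (fun t => by positivity) (by linarith) (by linarith)
      (by linarith)) (h2 _ (hσz θ))
    exact ((cG2.comp (Continuous.prodMk continuous_id continuous_const)).norm).pow 2
  have j3 : ∫ t in (T - 1)..(2 * T + 1), D t ≤ B3 :=
    le_trans (im (a := T / 2) (b := 4 * T) cD (fun t => by positivity) (by linarith) (by linarith) (by linarith)) h3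
  have j4 : ∫ t in (T - 1)..(2 * T + 1), ‖A (cl t)‖ ^ 2 ≤ B4 :=
    le_trans (im (a := T / 4) (b := 8 * T) cA2 (fun t => by positivity) (by linarith) (by linarith) (by linarith)) h4
  have q1 := mul_le_mul_of_nonneg_left j2 (show 0 ≤ 4 * E1 by positivity)
  have q2 := mul_le_mul_of_nonneg_left j4 (show 0 ≤ 9 / 4 * CL * E2 by positivity)
  linarith

lemma cz_cont : Continuous fun t : ℝ => riemannZeta (cl t) := by
  refine continuous_iff_continuousAt.mpr fun t => ?_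
  have hne : cl t ≠ 1 := by
    intro h
    have := congrArg Complex.re h
    simp [cl] at this
  exact (differentiableAt_riemannZeta hne).continuousAt.comp cl_cont.continuousAt

lemma AA_diff (k T : ℝ) : Differentiable ℂ (AA k T) := dp_diff _ _
lemma MM_diff (T : ℝ) : Differentiable ℂ (MM T) := dp_diff _ _
lemma ZZ_diff (T : ℝ) : Differentiable ℂ (ZZ T) := dp_diff _ _
lemma FF_diff (k T : ℝ) : Differentiable ℂ (FF k T) := ((ZZ_diff T).mul (AA_diff k T)).mul (MM_diff T)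

/-- the exceptional set -/
def Sw (T w : ℝ) : Set ℝ := {t : ℝ | t ∈ Set.Icc T (2 * T) ∧ ‖riemannZeta (cl t) * MM T (cl t)‖ ≤ Real.exp (-w)}

lemma Sw_meas (T w : ℝ) : MeasurableSet (Sw T w) := by
  have e1 : Measurable fun t : ℝ => ‖riemannZeta (cl t) * MM T (cl t)‖ :=
    (cz_cont.mul ((MM_diff T).continuous.comp cl_cont)).norm.measurable
  exact measurableSet_Icc.inter (measurableSet_le e1 measurable_const)

/-- growth of the iterated logarithms -/
lemma growth {C2 c0 CZ : ℝ} (hC2 : 0 < C2) (hCZ : 0 < CZ) : ∀ᶠ T : ℝ in atTop,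
    4 ≤ T ∧ 1 ≤ l3 T ∧ 1 ≤ C2 * l3 T ^ 4 ∧ 9 * (C2 * l3 T ^ 4) ≤ V T ∧ 1 ≤ V T ∧ V T ≤ Real.log T ∧
    Real.exp (l3 T) = V T ∧ 3 * CZ * Real.exp (c0 * l3 T ^ 5) ≤ T ^ ((9:ℝ) / 20) := by
  have g1 := l3_tendsto.eventually (ev_exp 0 (9 * C2) 4)
  have g2 := l3_tendsto.eventually (ev_exp (20 / 9 * Real.log (3 * CZ)) (20 / 9 * c0) 5)
  have g3 := l3_tendsto.eventually (eventually_ge_atTop (1:ℝ))
  have g4 := l3_tendsto.eventually (eventually_ge_atTop (1 / C2))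
  have g5 := v_tendsto.eventually (eventually_ge_atTop (1:ℝ))
  have g6 := Real.tendsto_log_atTop.eventually (eventually_ge_atTop (1:ℝ))
  filter_upwards [g1, g2, g3, g4, g5, g6, eventually_ge_atTop (4:ℝ)] with T h1 h2 h3 h4 h5 h6 h7
  have e1 : Real.exp (l3 T) = V T := by
    unfold l3
    exact Real.exp_log (by linarith)
  have e2 : V T ≤ Real.log T := by
    unfold V
    have := Real.log_le_sub_one_of_pos (show 0 < Real.log T by linarith)
    linarith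
  rw [e1] at h1 h2
  refine ⟨h7, h3, ?_, by linarith, h5, e2, e1, ?_⟩
  · have e3 : 1 ≤ l3 T ^ 3 := one_le_pow₀ h3
    have e4 : 1 ≤ C2 * l3 T := by
      have := mul_le_mul_of_nonneg_left h4 hC2.le
      rwa [mul_one_div_cancel hC2.ne'] at this
    calc (1:ℝ) = 1 * 1 := by norm_num
      _ ≤ (C2 * l3 T) * l3 T ^ 3 := mul_le_mul e4 e3 zero_le_one (by linarith)
      _ = C2 * l3 T ^ 4 := by ring
  · have hT0 : 0 < T := by linarith
    rw [Real.rpow_def_of_pos hT0]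
    have e5 : 3 * CZ = Real.exp (Real.log (3 * CZ)) := (Real.exp_log (by positivity)).symm
    rw [e5, ← Real.exp_add]
    refine Real.exp_le_exp.mpr ?_
    linarith

theorem t_LOCF : P_M1 → P_M6 → P_M8 → P_M9 → P_CIR → P_LOC → P_ZN → P_LOCF := by
  rintro ⟨D1, hD1, M1⟩ ⟨D6, hD6, M6⟩ ⟨D8, hD8, M8⟩ ⟨C2, hC2, M9⟩ CIR ⟨CL, hCL, LOC⟩ ⟨CZ, hCZ, ZN⟩
  set c' : ℝ := D8 * C2 + D8 + 2 with hc'
  have hc'0 : 0 < c' := by positivity
  set c0 : ℝ := 2 * (2 * c' + 5) with hc0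
  set K : ℝ := 1620 * D6 + 324 + 16 + 9 / 4 * CL * D1 with hK
  have hK0 : 0 < K := by positivity
  refine ⟨2 * c0 + K, by positivity, ?_⟩
  filter_upwards [M1, M6, M8, M9, growth (c0 := c0) hC2 hCZ] with T M1 M6 M8 M9 ⟨hT, hl, hl4, h9, hV1, hVL, hle, hwT⟩
  intro k hk0 hk1 w hw
  have hL : 1 ≤ Real.log T := hV1.trans hVL
  have hL0 : 0 < Real.log T := by linarith
  have hV0 : 0 < V T := by linarith
  have hT0 : 0 < T := by linarith
  set l := l3 T with hl3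
  set w1 : ℝ := c0 * l ^ 5 with hw1
  set σ : ℝ := C2 * l ^ 4 / Real.log T with hσ
  set m : ℝ := c' * l ^ 4 with hm
  have hl4' : 1 ≤ l ^ 4 := one_le_pow₀ hl
  have hl5' : 1 ≤ l ^ 5 := one_le_pow₀ hl
  have hw1w : 2 * w1 ≤ w := by
    refine le_trans ?_ hw
    have : 0 ≤ K * l ^ 5 := by positivity
    rw [hw1]; nlinarith
  have hw12 : 2 ≤ w1 := by
    have e1 : 10 ≤ c0 := by rw [hc0]; linarith
    calc (2:ℝ) ≤ 10 * 1 := by norm_num
      _ ≤ c0 * l ^ 5 := mul_le_mul e1 hl5' zero_le_one (by linarith)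
  have hm0 : 0 ≤ m := by positivity
  have hσ0 : 0 ≤ σ := by positivity
  have hσL : σ * Real.log T = C2 * l ^ 4 := by rw [hσ]; field_simp
  have hσ1 : σ ≤ 1 := by
    rw [hσ, div_le_one hL0]; linarith
  set X : ℝ := T * Real.exp (k ^ 2 * V T) with hX
  have hX0 : 0 < X := by positivity
  have hVm2 : V T ^ (-(2:ℝ)) = Real.exp (-(2 * l)) := by
    rw [Real.rpow_def_of_pos hV0, ← show l = Real.log (V T) from rfl]
    congr 1; ring
  have hsub : Sw T w ⊆ Sw T (2 * w1) := by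
    intro t ht
    exact ⟨ht.1, ht.2.trans (Real.exp_le_exp.mpr (by linarith))⟩
  have hint : IntegrableOn (fun t : ℝ => ‖AA k T (cl t)‖ ^ 2) (Sw T (2 * w1)) := by
    have : Continuous fun t : ℝ => ‖AA k T (cl t)‖ ^ 2 := (((AA_diff k T).continuous.comp cl_cont).norm).pow 2
    exact (this.continuousOn.integrableOn_Icc (a := T) (b := 2 * T)).mono_set fun t ht => ht.1
  have step : ∫ t in Sw T w, ‖AA k T (cl t)‖ ^ 2 ≤ ∫ t in Sw T (2 * w1), ‖AA k T (cl t)‖ ^ 2 :=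
    setIntegral_mono_set hint (Eventually.of_forall fun t => by positivity) hsub.eventuallyLE
  have main := coreT (A := AA k T) (F := FF k T) (AA_diff k T) (FF_diff k T) (S := Sw T (2 * w1)) (T := T)
    (m := m) (w := w1) (σ := σ) (CL := CL) hT (Sw_meas _ _) (fun t ht => ht.1)
    (fun t ht => small_prod hT hCZ hw12 hwT
      (ZN T hT t ⟨by linarith [ht.1.1], by linarith [ht.1.2]⟩) ht.2)
    hm0 hσ0 hσ1 hCL CIR LOC
    (B1 := D6 * X * V T ^ (-(2:ℝ))) (B2 := T * Real.exp (D8 * (C2 * l ^ 4)) * V T ^ D8 * Real.exp (k ^ 2 * V T))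
    (B3 := T * V T ^ (-(2:ℝ)) * Real.exp (k ^ 2 * V T)) (B4 := D1 * T * Real.exp (k ^ 2 * V T)) ?_ ?_ ?_ ?_
  · have e1 : Real.exp (-(2 * m)) * (T * Real.exp (D8 * (C2 * l ^ 4)) * V T ^ D8 * Real.exp (k ^ 2 * V T)) ≤
        X * V T ^ (-(2:ℝ)) := by
      have e2 : V T ^ D8 = Real.exp (D8 * l) := by
        rw [Real.rpow_def_of_pos hV0, ← show l = Real.log (V T) from rfl]
        congr 1; ring
      have e3 : Real.exp (-(2 * m)) * (Real.exp (D8 * (C2 * l ^ 4)) * Real.exp (D8 * l)) ≤ Real.exp (-(2 * l)) := by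
        rw [← Real.exp_add, ← Real.exp_add]
        refine Real.exp_le_exp.mpr ?_
        have e4 : l ≤ l ^ 4 := by
          calc l = l ^ 1 := (pow_one l).symm
            _ ≤ l ^ 4 := pow_le_pow_right₀ hl (by norm_num)
        have e5 : D8 * l ≤ D8 * l ^ 4 := mul_le_mul_of_nonneg_left e4 hD8.le
        have e6 : m = D8 * (C2 * l ^ 4) + D8 * l ^ 4 + 2 * l ^ 4 := by rw [hm, hc']; ring
        have e7 : 0 ≤ D8 * (C2 * l ^ 4) := by positivity
        linarith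
      rw [hVm2, e2]
      calc Real.exp (-(2 * m)) * (T * Real.exp (D8 * (C2 * l ^ 4)) * Real.exp (D8 * l) * Real.exp (k ^ 2 * V T)) =
          X * (Real.exp (-(2 * m)) * (Real.exp (D8 * (C2 * l ^ 4)) * Real.exp (D8 * l))) := by rw [hX]; ring
        _ ≤ X * Real.exp (-(2 * l)) := mul_le_mul_of_nonneg_left e3 hX0.le
    have e8 : Real.exp (-(w1 / (2 * m + 5))) ≤ V T ^ (-(2:ℝ)) := by
      rw [hVm2]
      refine Real.exp_le_exp.mpr (neg_le_neg ?_)
      rw [le_div_iff₀ (by positivity)]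
      have e9 : 2 * m + 5 ≤ (2 * c' + 5) * l ^ 4 := by rw [hm]; nlinarith
      calc 2 * l * (2 * m + 5) ≤ 2 * l * ((2 * c' + 5) * l ^ 4) :=
            mul_le_mul_of_nonneg_left e9 (by linarith)
        _ = w1 := by rw [hw1, hc0]; ring
    have e10 : 9 / 4 * CL * Real.exp (-(w1 / (2 * m + 5))) * (D1 * T * Real.exp (k ^ 2 * V T)) ≤
        9 / 4 * CL * V T ^ (-(2:ℝ)) * (D1 * T * Real.exp (k ^ 2 * V T)) := by
      refine mul_le_mul_of_nonneg_right ?_ (by positivity)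
      exact mul_le_mul_of_nonneg_left e8 (by positivity)
    have e11 : 0 ≤ ∫ t in Sw T (2 * w1), ‖AA k T (cl t)‖ ^ 2 := integral_nonneg fun t => by positivity
    have e12 : ∫ t in Sw T w, ‖AA k T (cl t)‖ ^ 2 ≤ K * (X * V T ^ (-(2:ℝ))) := by
      have e13 : T * V T ^ (-(2:ℝ)) * Real.exp (k ^ 2 * V T) = X * V T ^ (-(2:ℝ)) := by rw [hX]; ring
      have e14 : 9 / 4 * CL * V T ^ (-(2:ℝ)) * (D1 * T * Real.exp (k ^ 2 * V T)) =
        9 / 4 * CL * D1 * (X * V T ^ (-(2:ℝ))) := by rw [hX]; ring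
      have e15 : 324 * Real.exp (-(2 * m)) * (T * Real.exp (D8 * (C2 * l ^ 4)) * V T ^ D8 * Real.exp (k ^ 2 * V T)) ≤
          324 * (X * V T ^ (-(2:ℝ))) := by
        rw [mul_assoc]
        exact mul_le_mul_of_nonneg_left e1 (by norm_num)
      rw [e14] at e10
      rw [e13] at main
      have e16 : K * (X * V T ^ (-(2:ℝ))) = 1620 * (D6 * X * V T ^ (-(2:ℝ))) + 324 * (X * V T ^ (-(2:ℝ))) +
        16 * (X * V T ^ (-(2:ℝ))) + 9 / 4 * CL * D1 * (X * V T ^ (-(2:ℝ))) := by rw [hK]; ring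
      linarith
    refine e12.trans ?_
    have e17 : 0 ≤ X * V T ^ (-(2:ℝ)) := by positivity
    calc K * (X * V T ^ (-(2:ℝ))) ≤ (2 * c0 + K) * (X * V T ^ (-(2:ℝ))) :=
          mul_le_mul_of_nonneg_right (by linarith [show 0 < c0 by positivity]) e17
      _ = (2 * c0 + K) * T * V T ^ (-(2:ℝ)) * Real.exp (k ^ 2 * V T) := by rw [hX]; ring
  · intro z hz
    have e1 : ‖z‖ * Real.log T ≤ 9 * (C2 * l ^ 4) := by
      rw [← hσL, ← mul_assoc]
      exact mul_le_mul_of_nonneg_right hz hL0.le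
    have e2 : ‖z‖ * Real.log T ≤ V T := e1.trans h9
    refine (M6 k hk0 hk1 z e2).trans ?_
    have e3 : (‖z‖ * Real.log T) ^ 2 ≤ V T ^ 2 := pow_le_pow_left₀ (by positivity) e2 2
    have e4 : V T ^ 2 * V T ^ (-(4:ℝ)) = V T ^ (-(2:ℝ)) := by
      rw [← Real.rpow_natCast (V T) 2, ← Real.rpow_add hV0]
      norm_num
    calc D6 * T * Real.exp (k ^ 2 * V T) * (‖z‖ * Real.log T) ^ 2 * V T ^ (-(4:ℝ)) ≤
        D6 * T * Real.exp (k ^ 2 * V T) * V T ^ 2 * V T ^ (-(4:ℝ)) := by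
          refine mul_le_mul_of_nonneg_right ?_ (by positivity)
          exact mul_le_mul_of_nonneg_left e3 (by positivity)
      _ = D6 * X * (V T ^ 2 * V T ^ (-(4:ℝ))) := by rw [hX]; ring
      _ = D6 * X * V T ^ (-(2:ℝ)) := by rw [e4]
  · intro z hz
    refine M8 k hk0 hk1 (C2 * l ^ 4) hl4 (by linarith) z ?_
    rw [le_div_iff₀ hL0]
    calc ‖z‖ * Real.log T ≤ 9 * σ * Real.log T := mul_le_mul_of_nonneg_right hz hL0.le
      _ = 9 * (C2 * l ^ 4) := by rw [mul_assoc, hσL]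
  · exact M9 k hk0 hk1
  · exact M1 k hk0 hk1

end Pool.Agent.Q129.CD
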